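import Pool.Agent.H81.FB.Bad
import Pool.Graph.R_pool_sql_team_seeded_bc36138e.H7.PCA.Prog

set_option autoImplicit false

open Finset Polynomial Pool.Agent.W432.PC Pool.Agent.Helper104.CU Pool.Agent.H81.FB

/-!
# Flat bundles on curves which contain a system with almost all exponents in arcs or in progressions

We consider flat bundles on curves of any genus over finitely generated fields of characteristic zero
whose direct image under a function `x` contains a Fuchsian system `d/dx - ∑ j, A j / (x - α j)` of any
rank `r` on the line, with any number of singular points and arbitrary accessory parameters: for example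
the pull-back of such a system under any map `C → ℙ¹` (a bundle without poles on a proper curve, if the
ramification indices over the singular points are multiples of the denominators of the exponents),
direct sums and extensions with arbitrary bundles, and isotypic parts of equivariant bundles on a Galois
covering of the line. The system may be reducible and resonant.

Let `δ` be a rational number of denominator `d`, let `ε x` be rational numbers, for the singular points
`x`, with sum congruent to `δ` modulo `ℤ`, and let `L x ≥ 0` be integers with sum at most `d - 2`. It is
shown that (H) fails for the bundle if less than `r` of all the exponents of the system (at all the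
points, with multiplicities) are not congruent modulo `ℤ` to one of `ε x, ε x + δ, …, ε x + L x δ`.

For example, let there be three singular points, let the exponents have a prime number `N` as common
denominator and let no sum of three exponents, one at each point, be an integer. If the exponents at one
of the points are, modulo `ℤ`, in an arithmetic progression all of whose members are exponents (for
instance if there are only two different exponents modulo `ℤ` at this point), then the theorem applies,
for any rank and any multiplicities.

Proof. If the `p`-curvature of the bundle vanishes at a closed point, that of the system vanishes, for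
almost all closed points (library, `Helper104/CU`). For the system see `H7/PCA` (library): the
inequalities for line subbundles, applied to the parabolic bundle of the system and to its dual.
-/

namespace Pool.Agent.Results.MP_0707f5_ag.ArcsOnCurves

universe u v w

/-- Let `B = (E, ∇)` be a flat bundle on a part of a curve, spread out over the domain `R` of finite type
over `ℤ`, of characteristic zero, whose direct image on the line contains the Fuchsian system
`d/dx - ∑ j, A j / (x - α j)` of rank `r` with `n` finite poles, where the differences of the `α j` are
units of `R`. Let its exponents be `E (some j) l / N` at `α j` (the eigenvalues of `A j`) and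
`E none l / N` at infinity (the eigenvalues of `-∑ j, A j`). Nothing else is assumed on the system; it may
be reducible or resonant.

(1) Arcs. Let `a` be prime to `N`, let `s x` be integers with sum `1` modulo `N`, and let `g x ≥ 0` be integers
with sum at most `N - 2`, for the finite singular points `x = some j` and for infinity, `x = none`. If the
residue of `a * E x l - s x` modulo `N` is larger than `g x` for less than `r` of the pairs `(x, l)`, then the
`p`-curvature of `B` is nonzero at all closed points of `Spec R[1/h]` (for some nonzero `h`) whose residue
characteristic is a large prime `p` with `a p = -1` modulo `N`, and (H) fails for `B`.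

(2) Progressions. Let `D`, `c x` be integers such that the sum of the `c x` is congruent to `D` modulo `N`,
and let `L x ≥ 0` be integers whose sum is at most `d - 2`, where `d = N / gcd (D, N)` is the denominator of
`D / N`. If for less than `r` of the pairs `(x, l)` the exponent `E x l / N` is not congruent modulo `ℤ` to one
of the numbers `(c x + k D) / N`, `0 ≤ k ≤ L x`, then for some `a` prime to `N` the conclusions of (1) hold. -/
theorem result {R : Type u} [CommRing R] [IsDomain R] [CharZero R] [Algebra.FiniteType ℤ R]
    {F : Type v} [Field F] [Algebra R F] {V : Type w} [AddCommGroup V] [Module F V]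
    (B : FlatBundle R F V) {n r : ℕ} (α : Fin n → R) (hα : ∀ i j, i ≠ j → IsUnit (α i - α j))
    (A : Fin n → Matrix (Fin r) (Fin r) R) (hB : B.Contains α A) (N : ℕ) (hN : 0 < N)
    (E : Option (Fin n) → Fin r → ℤ)
    (hE : ∀ j, HasExponents (A j) (fun l => (E (some j) l : ℚ) / N))
    (hE' : HasExponents (∑ j, A j) (fun l => -(E none l : ℚ) / N)) :
    (∀ (a : ℤ) (s : Option (Fin n) → ℤ) (g : Option (Fin n) → ℕ), IsCoprime a (N : ℤ) →
      (N : ℤ) ∣ ∑ x, s x - 1 → ∑ x, g x + 2 ≤ N →
      ∑ x, {l | (g x : ℤ) < (a * E x l - s x) % (N : ℤ)}.ncard < r →
      BadClass B N a ∧ ¬ B.CondH) ∧
    (∀ (D : ℤ) (c : Option (Fin n) → ℤ) (L : Option (Fin n) → ℕ),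
      (N : ℤ) ∣ ∑ x, c x - D → Int.gcd D N * (∑ x, L x + 2) ≤ N →
      ∑ x, {l | ¬ ∃ k : ℕ, k ≤ L x ∧ (N : ℤ) ∣ E x l - (c x + k * D)}.ncard < r →
      (∃ a : ℤ, IsCoprime a (N : ℤ) ∧ BadClass B N a) ∧ ¬ B.CondH) := by
  classical
  refine ⟨fun a s g ha hs hg hout => ?_, fun D c L hc hL hout => ?_⟩
  · have h1 : ∀ x, {l | (g x : ℤ) < (a * E x l - s x) % (N : ℤ)}.ncard =
        (univ.filter fun l => (g x : ℤ) < (a * E x l - s x) % (N : ℤ)).card := by
      intro x
      rw [← Set.ncard_coe_finset]
      congr 1
      ext l
      simp
    simp only [h1] at hout
    have h2 := Pool.Agent.H7.PCA.arcs α hα A N hN E hE hE' a s hs g hg hout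
    exact ⟨badClass hB h2, not_condH hB N hN a ha h2⟩
  · obtain ⟨a, ha, h2⟩ := Pool.Agent.H7.PCA.progs α hα A N hN E hE hE' D c hc L hL hout
    exact ⟨⟨a, ha, badClass hB h2⟩, not_condH hB N hN a ha h2⟩

end Pool.Agent.Results.MP_0707f5_ag.ArcsOnCurves
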