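import Pool.Agent.H81.FB.Bad
import Pool.Graph.R_pool_sql_team_seeded_64922ed1.X319.DI.Final

set_option autoImplicit false

open Pool.Agent.W432.PC Pool.Agent.Helper104.CU Pool.Agent.H81.FB

/-!
# Flat bundles on curves which contain a Fuchsian system: a triangle inequality for the exponents

We consider flat bundles on curves of any genus over finitely generated fields of characteristic zero
whose direct image under a function `x` contains a Fuchsian system `d/dx - ∑ j, A j / (x - α j)` of any
rank on the line, with any number of singular points, reducible or not, and with arbitrary accessory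
parameters: for example the pull-back of such a system under any map `C → ℙ¹` (a bundle without poles
on a proper curve, if the ramification indices over the singular points are multiples of the
denominators of the exponents), direct sums and extensions with arbitrary bundles, and isotypic parts
of equivariant bundles on a Galois covering of the line.

If the monodromy group were finite the local monodromies `g x` of the system would have product one, and
the distances of the eigenvalues of `g x₀` to one would be at most the sum over the other points `x` of
the distances of `g x` to the identity.  The same inequality, for the lengths of arcs and for all Galois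
conjugates, is proved here for the systems in bundles which satisfy the hypothesis (H). So (H) fails when
the denominators of the exponents at all singular points but one, `x₀`, have only large prime factors,
and the denominator of some exponent at `x₀` does not divide their common denominator.

Proof. If the `p`-curvature of the bundle vanishes at a closed point, that of the system vanishes, for
almost all closed points (library, `Helper104/CU`). For the system see `X319/DI` (library): the line
subbundles of two parabolic bundles, dual to each other, have nonpositive degrees.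
-/

namespace Pool.Agent.Results.MP_0707f5_ag.DisplacementOnCurves

universe u v w

/-- The distance of a rational number to the nearest integer. -/
def distZ (q : ℚ) : ℚ := |q - round q|

/-- Let `B = (E, ∇)` be a flat bundle on a part of a curve, spread out over the domain `R` of finite type
over `ℤ`, of characteristic zero, whose direct image on the line contains the Fuchsian system
`d/dx - ∑ j, A j / (x - α j)` of rank `r` with `n` finite poles, where the differences of the `α j` are
units of `R`. Let its exponents be the rational numbers `lam x l`, `l < r`, at the `n + 1` singular points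
`x` (the eigenvalues of `A j` for `x = some j` and of `-∑ j, A j` for the point at infinity `x = none`),
and let `N` be a common denominator. Let `x₀` be one of the singular points, and `lam x₀ l₀` one of the
exponents there.

(1) Let `a` be an integer. If `a * lam x₀ l₀` is farther from the integers than the sum over the
other points `x` of bounds `D x` for the distances of the numbers `a * lam x l` to the integers,
then the `p`-curvature of `B` is nonzero at all the closed points of `Spec R[1/g]` (for some nonzero `g`)
whose residue characteristic is a large prime `p` with `a p = -1` modulo `N`.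

(2) So the hypothesis (H) implies, for all `a` prime to `N`, that
`distZ (a * lam x₀ l₀) ≤ ∑ x ≠ x₀, max l, distZ (a * lam x l)`.

(3) Let `M` be a common denominator of the exponents at the points `x ≠ x₀`, all of whose prime
factors are larger than `(6 n + 7) ^ (n r + 1)`. If `M * lam x₀ l₀` is not an integer, then there is a
residue class modulo `N`, prime to `N`, such that the `p`-curvature of `B` is nonzero at all the closed
points of `Spec R[1/g]` (for some nonzero `g`) whose residue characteristic is a large prime in that
class; and (H) fails for `B`. -/
theorem result {R : Type u} [CommRing R] [IsDomain R] [CharZero R] [Algebra.FiniteType ℤ R]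
    {F : Type v} [Field F] [Algebra R F] {V : Type w} [AddCommGroup V] [Module F V]
    (B : FlatBundle R F V) {n r : ℕ} (α : Fin n → R) (hα : ∀ i j, i ≠ j → IsUnit (α i - α j))
    (A : Fin n → Matrix (Fin r) (Fin r) R) (hB : B.Contains α A)
    (lam : Option (Fin n) → Fin r → ℚ) (hlam : ∀ j, HasExponents (A j) (lam (some j)))
    (hinf : HasExponents (∑ j, A j) (fun l => -lam none l))
    (N : ℕ) (hN : 0 < N) (hNlam : ∀ x l, ∃ m : ℤ, (N : ℚ) * lam x l = m)
    (x₀ : Option (Fin n)) (l₀ : Fin r) :
    (∀ (a : ℤ) (D : Option (Fin n) → ℚ),
      (∀ x, x ≠ x₀ → ∀ l, distZ (a * lam x l) ≤ D x) →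
      ∑ x ∈ Finset.univ.erase x₀, D x < distZ (a * lam x₀ l₀) → BadClass B N a) ∧
    (B.CondH → ∀ (a : ℤ) (D : Option (Fin n) → ℚ), IsCoprime a (N : ℤ) →
      (∀ x, x ≠ x₀ → ∀ l, distZ (a * lam x l) ≤ D x) →
      distZ (a * lam x₀ l₀) ≤ ∑ x ∈ Finset.univ.erase x₀, D x) ∧
    (∀ M : ℕ, 0 < M → (∀ x, x ≠ x₀ → ∀ l, ∃ m : ℤ, (M : ℚ) * lam x l = m) →
      (∀ q : ℕ, q.Prime → q ∣ M → (6 * n + 7) ^ (n * r + 1) < q) →
      (¬ ∃ m : ℤ, (M : ℚ) * lam x₀ l₀ = m) →
      (∃ a : ℤ, IsCoprime a (N : ℤ) ∧ BadClass B N a) ∧ ¬ B.CondH) := by
  have h1 : ∀ (a : ℤ) (D : Option (Fin n) → ℚ),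
      (∀ x, x ≠ x₀ → ∀ l, distZ (a * lam x l) ≤ D x) →
      ∑ x ∈ Finset.univ.erase x₀, D x < distZ (a * lam x₀ l₀) →
      ∃ P₀ : ℕ, ∀ p : ℕ, p.Prime → P₀ < p → (N : ℤ) ∣ a * p + 1 →
        ∀ (𝔪 : Ideal R) [𝔪.IsMaximal], (p : R) ∈ 𝔪 → ¬ PCurvZeroAt α A 𝔪 :=
    fun a D hD hlt => Pool.Agent.X319.DI.bad_of_disp α hα A lam hlam hinf N hN hNlam x₀ l₀ a D hD hlt
  refine ⟨fun a D hD hlt => badClass hB (h1 a D hD hlt), fun hH a D ha hD => ?_,
    fun M hM hMlam hq hMl => ?_⟩
  · by_contra hcon
    exact not_condH hB N hN a ha (h1 a D hD (not_le.1 hcon)) hH
  · obtain ⟨a, ha, hb⟩ := Pool.Agent.X319.DI.rough α hα A lam hlam hinf N hN hNlam x₀ l₀ M hM hMlam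
      hq hMl
    exact ⟨⟨a, ha, badClass hB hb⟩, not_condH hB N hN a ha hb⟩

end Pool.Agent.Results.MP_0707f5_ag.DisplacementOnCurves
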