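import Pool.Agent.H81.FB.Bad
import Pool.Graph.R_pool_sql_team_seeded_63374d34.N128.SP.Final

set_option autoImplicit false

open Polynomial Pool.Agent.W432.PC Pool.Agent.Helper104.CU Pool.Agent.H81.FB

/-!
# Flat bundles on curves which contain an orthogonal system: an obstruction from the spin representation

We consider flat bundles on curves of any genus over finitely generated fields of characteristic zero
whose direct image under a function `x` contains an orthogonal Fuchsian system
`d/dx - ∑ j, A j / (x - α j)` (skew-symmetric residues `A j`) on the line: for example the pull-back of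
such a system under any map `C → ℙ¹` (a bundle without poles on a proper curve, if the ramification
indices over the singular points are multiples of the denominators of the exponents), direct sums of
such a pull-back with arbitrary bundles, extensions, and isotypic parts of equivariant bundles.

If the exponents `± e j i / N`, `± e' i / N` of the system have an odd sum of numerators (the second
Stiefel-Whitney class of the corresponding parabolic bundle is not zero) and `N` has large prime
factors only, or the multiple of the vector of the exponents by some integer prime to `N` is near to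
an integral vector, then the `p`-curvatures of the bundle are nonzero for a positive proportion of the
residue classes of primes modulo `2 N`; the proportion depends only on the rank of the system and on
the number of its singular points, not on the curve, the bundle or the accessory parameters. So the
hypothesis (H) fails.

Proof. If the `p`-curvature of the bundle vanishes at a closed point, that of the system vanishes, for
almost all closed points (library, `Helper104/CU`); then the `p`-curvature of the spin system of the
rank `2 ^ r` vanishes, and the inequality for its line subbundles is violated (library, `N128/SP`).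
-/

namespace Pool.Agent.Results.MP_0707f5_ag.SpinParityOnCurves

universe u v w

/-- The eigenvalues of the `r × r` matrix `A` are the `μ i` and `-μ i`, `i < m`, and `r - 2 m` zeros
(eigenvalues with multiplicity, in an algebraic closure of the fraction field). -/
def SymExponents {R : Type u} [CommRing R] [IsDomain R] {r m : ℕ} (A : Matrix (Fin r) (Fin r) R)
    (μ : Fin m → ℚ) : Prop :=
  A.charpoly.map (algebraMap R (FractionRing R)) = X ^ (r - 2 * m) *
    ∏ i, (X - C ((μ i : ℚ) : FractionRing R)) * (X + C ((μ i : ℚ) : FractionRing R))

/-- `N` times the distance, in the sum norm, of the vector `(a / N) (e, e')` to the integer vector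
`(k, k')`. -/
def dist {n m : ℕ} (N : ℕ) (e : Fin n → Fin m → ℤ) (e' : Fin m → ℤ) (a : ℤ)
    (k : Fin n → Fin m → ℤ) (k' : Fin m → ℤ) : ℤ :=
  ∑ j, ∑ i, |a * e j i - N * k j i| + ∑ i, |a * e' i - N * k' i|

/-- For all `n` and `r` there is an `ε > 0` with the following property. Let `B = (E, ∇)` be a flat
bundle on a part of a curve, spread out over the domain `R` of finite type over `ℤ`, of characteristic
zero, whose direct image on the line contains the Fuchsian system `d/dx - ∑ j, A j / (x - α j)` of rank
`r` with `n` finite poles, where the differences of the `α j` are units of `R`, the residues `A j` are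
skew-symmetric (an orthogonal system), the eigenvalues of `A j` are the `± e j i / N` and zeros, and
those of `∑ j, A j` are the `± e' i / N` and zeros (`i < m`).

Assume that the sum of all the `e j i` and `e' i` is odd, and that

* all prime factors of `N` are larger than `(2 M + 1) ^ M`, where `M = (n + 1) m`, or
* for some integer `a` prime to `N` the distance, in the sum norm, of `(a / N) (e, e')` to some integer
  vector is less than `1 / 2`, or less than `1` and `N` is even.

Then there are a set of at least `ε φ(2 N)` residue classes modulo `2 N`, prime to `2 N`, and a nonzero `g`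
in `R` such that the `p`-curvature of `B` is nonzero at every closed point of `Spec R[1/g]` whose residue
characteristic is a large prime in one of these classes, and the hypothesis (H) fails for `B`. -/
theorem result (n r : ℕ) : ∃ ε : ℝ, 0 < ε ∧
    ∀ (R : Type u) [CommRing R] [IsDomain R] [CharZero R] [Algebra.FiniteType ℤ R]
      (F : Type v) [Field F] [Algebra R F] (V : Type w) [AddCommGroup V] [Module F V]
      (B : FlatBundle R F V) (m : ℕ) (α : Fin n → R) (A : Fin n → Matrix (Fin r) (Fin r) R) (N : ℕ)
      (e : Fin n → Fin m → ℤ) (e' : Fin m → ℤ), B.Contains α A →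
      (∀ i j, i ≠ j → IsUnit (α i - α j)) → (∀ j, (A j).transpose = -A j) →
      0 < N → (∀ j, SymExponents (A j) (fun i => (e j i : ℚ) / N)) →
      SymExponents (∑ j, A j) (fun i => (e' i : ℚ) / N) →
      Odd (∑ j, ∑ i, e j i + ∑ i, e' i) →
      ((∀ q : ℕ, q.Prime → q ∣ N → (2 * ((n + 1) * m) + 1) ^ ((n + 1) * m) < q) ∨
        ∃ (a : ℤ) (k : Fin n → Fin m → ℤ) (k' : Fin m → ℤ), IsCoprime a (N : ℤ) ∧
          (2 * dist N e e' a k k' < N ∨ (Even N ∧ dist N e e' a k k' < N))) →
      BadClasses B (2 * N) ε ∧ ¬ B.CondH := by
  obtain ⟨ε, hε, hd⟩ := Pool.Agent.N128.SP.density_fails.{u} n r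
  refine ⟨ε, hε, ?_⟩
  intro R _ _ _ _ F _ _ V _ _ B m α A N e e' hB hα hA hN he he' hsum hor
  have h2 : ∀ (a : ℤ) (k : Fin n → Fin m → ℤ) (k' : Fin m → ℤ), IsCoprime a (N : ℤ) →
        (2 * dist N e e' a k k' < N ∨ (Even N ∧ dist N e e' a k k' < N)) →
        BadClasses B (2 * N) ε ∧ ¬ B.CondH := by
    intro a k k' ha hk
    obtain ⟨a₁, k₁, k₁', ha₁, hodd, hk₁⟩ := Pool.Agent.N128.SP.shift e e' hsum a k k' ha hk
    exact ⟨badClasses hB (hd R m α hα A hA N hN e e' he he' a₁ ha₁ k₁ k₁' hodd hk₁),
      not_condH hB (2 * N) (by omega) a₁ ha₁
        (Pool.Agent.N128.SP.class_fails α hα A hA N hN e e' he he' a₁ k₁ k₁' hodd hk₁)⟩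
  rcases hor with hrough | ⟨a, k, k', ha, hk⟩
  · obtain ⟨a, k, k', ha, hk⟩ := Pool.Agent.N128.SP.rough hN e e' hrough
    exact h2 a k k' ha (Or.inl hk)
  · exact h2 a k k' ha hk

end Pool.Agent.Results.MP_0707f5_ag.SpinParityOnCurves
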