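import Pool.Agent.H81.FB.Bad
import Pool.Graph.R_pool_sql_team_seeded_64922ed1.X319.SY.Final

set_option autoImplicit false

open Pool.Agent.W432.PC Finset Pool.Agent.Helper104.CU Pool.Agent.H81.FB

/-!
# Flat bundles on curves which contain a system with a twist without cohomology

We consider flat bundles on curves of any genus over finitely generated fields of characteristic zero
whose direct image under a function `x` contains a Fuchsian system `d/dx - ∑ j, A j / (x - α j)` of any
rank `r` on the line, with any number of singular points, reducible or not, and with arbitrary accessory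
parameters: for example the pull-back of such a system under any map `C → ℙ¹` (a bundle without poles
on a proper curve, if the ramification indices over the singular points are multiples of the
denominators of the exponents), direct sums and extensions with arbitrary bundles, and isotypic parts
of equivariant bundles on a Galois covering of the line.

Let `L` be a local system of rank `r` on the punctured line with finite monodromy and `χ` a finite
character of rank one, such that `L ⊗ χ` has no invariants at one puncture. The first cohomology of the
extension `j_* (L ⊗ χ)` has dimension `W - 2 r`, where `W` is the number of the local eigenvalues of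
`L ⊗ χ` different from one. When `W = 2 r` its Hodge numbers vanish, for all Galois conjugates. Here the
consequence of this is proved for the systems in bundles which satisfy the hypothesis (H): since
`L(1, ψ) ≠ 0` for all odd Dirichlet characters `ψ`, the exponents of the twist are symmetric under
`t ↦ -t` if their denominator is prime, or has only large prime factors. So (H) fails for all the bundles
which contain a system with such exponents that are not symmetric.

Proof. If the `p`-curvature of the bundle vanishes at a closed point, that of the system vanishes, for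
almost all closed points (library, `Helper104/CU`). For the system see `X319/SY` (library).
-/

namespace Pool.Agent.Results.MP_0707f5_ag.SymmetricTwistsOnCurves

universe u v w

/-- The number of the pairs `(x, l)` for which `lam x l - c x` is not an integer. -/
def W {n r : ℕ} (lam : Option (Fin n) → Fin r → ℚ) (c : Option (Fin n) → ℚ) : ℕ :=
  (univ.filter fun i : Option (Fin n) × Fin r => (lam i.1 i.2 - c i.1).den ≠ 1).card

/-- The number of the pairs `(x, l)` for which `lam x l - c x` is congruent to `t` modulo `ℤ`. -/
def mult {n r : ℕ} (lam : Option (Fin n) → Fin r → ℚ) (c : Option (Fin n) → ℚ) (t : ℚ) : ℕ :=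
  (univ.filter fun i : Option (Fin n) × Fin r => (lam i.1 i.2 - c i.1 - t).den = 1).card

/-- `M` is a prime number, or `2 r ∑ 1 / (q - 1) < 1`, the sum over the prime divisors `q` of
`M ≥ 1`. -/
def Rough (r M : ℕ) : Prop :=
  M.Prime ∨ 0 < M ∧ ((2 * r : ℕ) : ℝ) * ∑ q ∈ M.primeFactors, (1 : ℝ) / ((q : ℝ) - 1) < 1

/-- Let `B = (E, ∇)` be a flat bundle on a part of a curve, spread out over the domain `R` of finite type
over `ℤ`, of characteristic zero, whose direct image on the line contains the Fuchsian system
`d/dx - ∑ j, A j / (x - α j)` of rank `r` with `n` finite poles, where the differences of the `α j` are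
units of `R`. Let its exponents be the rational numbers `lam x l`, `l < r`, at the `n + 1` singular points
`x` (the eigenvalues of `A j` for `x = some j` and of `-∑ j, A j` for the point at infinity `x = none`).

Let `c x` be rational numbers with integral sum, and suppose that no exponent at the point `x₀` is
congruent to `c x₀` modulo `ℤ`. Let `N` be a common denominator of the `lam x l` and the `c x`, and suppose
that at most `2 r` of the `lam x l - c x` are not integers, and that they have a common denominator `M`
which is prime or has large prime factors, `2 r ∑_{q ∣ M} 1 / (q - 1) < 1`.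

(1) Suppose that for some `t` the numbers of the `lam x l - c x` congruent to `t` and to `-t` modulo `ℤ` are
different. Then there is a residue class modulo `N`, prime to `N`, such that the `p`-curvature of `B` is
nonzero at all the closed points of `Spec R[1/g]` (for some nonzero `g`) whose residue characteristic is a
large prime in that class; and the hypothesis (H) fails for `B`.

(2) Suppose that the exponents at some point `x₁` are congruent to `c x₁` or to `d`, where
`2 (d - c x₁)` is not an integer, that at least `m` of them are congruent to `d`, and that at the points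
`x ≠ x₁` the classes of exponents not congruent to `c x` have at most `e x` elements. If
`m > ∑_{x ≠ x₁} e x` the conclusions of (1) hold.

Example for (2), with arbitrarily many accessory parameters: systems `f' = (b/t + c/(t-1)) f` of rank
`r = j + m`, `m ≥ 3`, with exponents `c₀` (`j` times) and `d₀` (`m` times) at `0`, `c₁` (`m` times)
and `j` different ones at `1`, and `r` different ones at infinity, no exponent at infinity being
`-c₀ - c₁` modulo `ℤ`. -/
theorem result {R : Type u} [CommRing R] [IsDomain R] [CharZero R] [Algebra.FiniteType ℤ R]
    {F : Type v} [Field F] [Algebra R F] {V : Type w} [AddCommGroup V] [Module F V]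
    (B : FlatBundle R F V) {n r : ℕ} (α : Fin n → R) (hα : ∀ i j, i ≠ j → IsUnit (α i - α j))
    (A : Fin n → Matrix (Fin r) (Fin r) R) (hB : B.Contains α A)
    (lam : Option (Fin n) → Fin r → ℚ) (hlam : ∀ j, HasExponents (A j) (lam (some j)))
    (hinf : HasExponents (∑ j, A j) (fun l => -lam none l))
    (c : Option (Fin n) → ℚ) (hc : ∃ z : ℤ, ∑ x, c x = z)
    (x₀ : Option (Fin n)) (hx₀ : ∀ l, (lam x₀ l - c x₀).den ≠ 1)
    (N : ℕ) (hN : 0 < N) (hNlam : ∀ x l, ∃ m : ℤ, (N : ℚ) * lam x l = m)
    (hNc : ∀ x, ∃ m : ℤ, (N : ℚ) * c x = m) (hW : W lam c ≤ 2 * r) (M : ℕ) (hM : Rough r M)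
    (hMd : ∀ x l, ∃ m : ℤ, (M : ℚ) * (lam x l - c x) = m) :
    ((∃ t : ℚ, mult lam c t ≠ mult lam c (-t)) →
      (∃ a : ℤ, IsCoprime a (N : ℤ) ∧ BadClass B N a) ∧ ¬ B.CondH) ∧
    (∀ (x₁ : Option (Fin n)) (d : ℚ) (m : ℕ) (e : Option (Fin n) → ℕ),
      (∀ l, (lam x₁ l - c x₁).den = 1 ∨ (lam x₁ l - d).den = 1) → (2 * (d - c x₁)).den ≠ 1 →
      m ≤ (univ.filter fun l => (lam x₁ l - d).den = 1).card →
      (∀ x, x ≠ x₁ → ∀ q : ℚ, (q - c x).den ≠ 1 →
        (univ.filter fun l => (lam x l - q).den = 1).card ≤ e x) →
      ∑ x ∈ univ.erase x₁, e x < m →
      (∃ a : ℤ, IsCoprime a (N : ℤ) ∧ BadClass B N a) ∧ ¬ B.CondH) := by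
  classical
  have h2 : (∃ t : ℚ, mult lam c t ≠ mult lam c (-t)) →
      (∃ a : ℤ, IsCoprime a (N : ℤ) ∧ BadClass B N a) ∧ ¬ B.CondH := by
    rintro ⟨t, ht⟩
    obtain ⟨a, ha, hb⟩ := Pool.Agent.X319.SY.asym_bad α hα A lam hlam hinf N hN hNlam c hNc hc x₀ hx₀
      hW M hMd hM t (fun h => ht (by
        unfold mult
        simp only [sub_neg_eq_add]
        exact h))
    exact ⟨⟨a, ha, badClass hB hb⟩, not_condH hB N hN a ha hb⟩
  refine ⟨h2, ?_⟩
  intro x₁ d m e k1 k2 k3 k4 k5
  refine h2 ⟨d - c x₁, fun h => ?_⟩
  refine Pool.Agent.X319.SY.mult_ne lam c x₁ d m e k3 k1 k2 k4 k5 ?_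
  unfold mult at h
  simp only [sub_neg_eq_add] at h
  exact h

end Pool.Agent.Results.MP_0707f5_ag.SymmetricTwistsOnCurves
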